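import Mathlib
import Pool.Agent.R528.RM.ManyUp

set_option autoImplicit false

/-!
# Many shifts in random models of the primes: the exact range

Fix a finite set `Q` of primes.  Multiples of the primes of `Q` are never chosen; the other integers
are decided one after the other, and the conditional probability of choosing `n + 1`, given the
decisions up to `n`, is `(1 + o(1)) ∏_{p ∈ Q} (1 - 1/p)⁻¹ / log n` (no independence is assumed).

Call a finite set `H` of shifts `Q`-admissible if it misses a residue class modulo each `p ∈ Q`.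

* `result`.  Almost surely, for every `C` and every `δ > 0` and all large `x`:
  - (`δ < 1`) for EVERY `Q`-admissible set `H` of shifts in `[0, x^C]` with
    `#H ≤ (1 - δ) log x / log log x` there are at least `x^(δ/4)` integers `1 ≤ n ≤ x` with all of
    `n + H` chosen;
  - there is a `Q`-admissible set `H` of shifts in `[0, x]` with `#H ≤ (1 + δ) log x / log log x`
    such that no `1 ≤ n ≤ x` has all of `n + H` chosen.
-/

open MeasureTheory Filter
open scoped Topology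

namespace Pool.Agent.Results.MP_f686a1_nt.ManyShiftsThreshold

/-- the conditional probability that `n + 1` is chosen, given the information up to `n` -/
noncomputable def density {Ω : Type} {mΩ : MeasurableSpace Ω} (μ : Measure Ω) (ℱ : Filtration ℕ mΩ)
    (A : ℕ → Set Ω) (n : ℕ) : Ω → ℝ := μ[(A (n + 1)).indicator (fun _ => (1 : ℝ)) | ℱ n]

/-- the number of `1 ≤ n ≤ x` with `n + h ∈ S` for all `h ∈ H` -/
noncomputable def tupleCount (S : Set ℕ) (H : Finset ℕ) (x : ℕ) : ℕ :=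
  {n : ℕ | 1 ≤ n ∧ n ≤ x ∧ ∀ h ∈ H, n + h ∈ S}.ncard

/-- `H` misses a residue class modulo each prime of `Q` -/
def Adm (Q H : Finset ℕ) : Prop := ∀ p ∈ Q, ∃ r < p, ∀ h ∈ H, h % p ≠ r

lemma adm_iff (Q H : Finset ℕ) (hQ : ∀ p ∈ Q, p.Prime) : Adm Q H ↔ ∀ p ∈ Q, Pool.Agent.R528.RM.occ H p < p := by
  classical
  unfold Adm Pool.Agent.R528.RM.occ
  refine forall₂_congr fun p hp => ?_
  have hp0 : 0 < p := (hQ p hp).pos
  have hsub : H.image (· % p) ⊆ Finset.range p := by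
    intro a ha
    obtain ⟨h, _, rfl⟩ := Finset.mem_image.1 ha
    exact Finset.mem_range.2 (Nat.mod_lt _ hp0)
  constructor
  · rintro ⟨r, hr, h⟩
    have h1 : H.image (· % p) ⊂ Finset.range p := by
      refine ⟨hsub, fun h2 => ?_⟩
      obtain ⟨a, ha, hb⟩ := Finset.mem_image.1 (h2 (Finset.mem_range.2 hr))
      exact h a ha hb
    simpa using Finset.card_lt_card h1
  · intro h
    by_contra hno
    push Not at hno
    have h1 : Finset.range p ⊆ H.image (· % p) := by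
      intro r hr
      obtain ⟨a, ha, hb⟩ := hno r (Finset.mem_range.1 hr)
      exact Finset.mem_image.2 ⟨a, ha, hb⟩
    have := Finset.card_le_card h1
    rw [Finset.card_range] at this
    omega

lemma tupleCount_eq {Ω : Type} (A : ℕ → Set Ω) (ρ : ℕ → ℝ) (H : Finset ℕ) (x : ℕ) (ω : Ω) :
    (tupleCount {a | ω ∈ A a} H x : ℝ) = Pool.Agent.R528.RM.TN A ρ x H ∅ ω := by
  classical
  have h1 : ∀ j, Pool.Agent.R528.RM.In A j ω = if ω ∈ A j then 1 else 0 := by
    intro j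
    unfold Pool.Agent.R528.RM.In
    by_cases h : ω ∈ A j
    · rw [if_pos h, Set.indicator_of_mem h]
    · rw [if_neg h, Set.indicator_of_notMem h]
  unfold Pool.Agent.R528.RM.TN
  have h2 : ∀ n, (∏ h ∈ H, Pool.Agent.R528.RM.In A (n + 1 + h) ω) * ∏ h ∈ (∅ : Finset ℕ), ρ (n + 1 + h) =
      if (∀ h ∈ H, ω ∈ A (n + 1 + h)) then 1 else 0 := by
    intro n
    rw [Finset.prod_empty, mul_one]
    simp only [h1]
    rw [Finset.prod_ite_zero]
    simp
  simp_rw [h2]
  rw [Finset.sum_boole]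
  congr 1
  unfold tupleCount
  rw [← Set.ncard_coe_finset]
  refine (Set.ncard_congr (fun n _ => n + 1) ?_ ?_ ?_).symm
  · intro n hn
    simp only [Finset.coe_filter, Finset.mem_range, Set.mem_ofPred_eq] at hn
    exact ⟨by omega, by omega, hn.2⟩
  · intro a b _ _ h
    omega
  · intro n hn
    obtain ⟨h3, h4, h5⟩ := hn
    refine ⟨n - 1, ?_, by omega⟩
    simp only [Finset.coe_filter, Finset.mem_range, Set.mem_ofPred_eq]
    refine ⟨by omega, fun h hh => ?_⟩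
    rw [show n - 1 + 1 = n by omega]
    exact h5 h hh

end Pool.Agent.Results.MP_f686a1_nt.ManyShiftsThreshold

open Pool.Agent.Results.MP_f686a1_nt.ManyShiftsThreshold

theorem Pool.Agent.Results.MP_f686a1_nt.ManyShiftsThreshold.result
    {Ω : Type} [mΩ : MeasurableSpace Ω] (μ : Measure Ω) [IsProbabilityMeasure μ]
    (ℱ : Filtration ℕ mΩ) (A : ℕ → Set Ω) (hA : ∀ n, MeasurableSet[ℱ n] (A n))
    (Q : Finset ℕ) (hQ : ∀ p ∈ Q, p.Prime) (hcop : ∀ n, (∃ p ∈ Q, p ∣ n) → A n = ∅)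
    (hd : ∀ᵐ ω ∂μ, Tendsto (fun n : ℕ => density μ ℱ A n ω * Real.log n)
      (atTop ⊓ 𝓟 {n : ℕ | ∀ p ∈ Q, ¬ p ∣ n + 1}) (𝓝 (∏ p ∈ Q, (1 - 1 / (p : ℝ))⁻¹))) :
    ∀ᵐ ω ∂μ, ∀ C : ℕ, ∀ δ : ℝ, 0 < δ → ∀ᶠ x : ℕ in atTop,
      (δ < 1 → ∀ H : Finset ℕ, (∀ h ∈ H, h ≤ x ^ C) → Adm Q H →
        (H.card : ℝ) ≤ (1 - δ) * (Real.log x / Real.log (Real.log x)) →
          (x : ℝ) ^ (δ / 4) ≤ tupleCount {a | ω ∈ A a} H x) ∧
      ∃ H : Finset ℕ, (∀ h ∈ H, h ≤ x) ∧ Adm Q H ∧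
        (H.card : ℝ) ≤ (1 + δ) * (Real.log x / Real.log (Real.log x)) ∧
          tupleCount {a | ω ∈ A a} H x = 0 := by
  filter_upwards [Pool.Agent.R528.RM.many_law2 hA Q hQ hcop hd, Pool.Agent.R528.RM.many_up hA Q hQ hcop hd] with ω h1 h2 C δ hδ
  have h3 : ∀ᶠ x : ℕ in atTop, δ < 1 → ∀ H : Finset ℕ, (∀ h ∈ H, h ≤ x ^ C) → Adm Q H →
        (H.card : ℝ) ≤ (1 - δ) * (Real.log x / Real.log (Real.log x)) →
          (x : ℝ) ^ (δ / 4) ≤ tupleCount {a | ω ∈ A a} H x := by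
    by_cases hδ1 : δ < 1
    · filter_upwards [h1 C δ hδ hδ1] with x hx _ H hH hadm hk
      rw [tupleCount_eq A (Pool.Agent.R528.RM.rhoW (∏ p ∈ Q, p))]
      exact hx H hH hk ((adm_iff Q H hQ).1 hadm)
    · exact Eventually.of_forall fun x h => absurd h hδ1
  filter_upwards [h3, h2 δ hδ] with x hx1 hx2
  refine ⟨hx1, ?_⟩
  obtain ⟨H, hH1, hH2, hH3, hH4⟩ := hx2
  refine ⟨H, hH1, (adm_iff Q H hQ).2 hH3, hH2, ?_⟩
  unfold tupleCount
  have : {n : ℕ | 1 ≤ n ∧ n ≤ x ∧ ∀ h ∈ H, n + h ∈ {a | ω ∈ A a}} = ∅ := by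
    rw [Set.eq_empty_iff_forall_notMem]
    rintro n ⟨g1, g2, g3⟩
    obtain ⟨h, hh, hn⟩ := hH4 n g1 g2
    exact hn (g3 h hh)
  rw [this, Set.ncard_empty]
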