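import Pool.Agent.R498.MP.LinC

set_option autoImplicit false

/-!
# Runs of primes `p` in a residue class with almost prime `p + t_1, ..., p + t_k`
-/

namespace Pool.Agent.Results.MP_f686a1_nt.PrimeStrings

open Filter

/-- `n` has at most `r` prime factors, counted with multiplicity, all of them at least `w`. -/
def AlmostPrime (r : ℕ) (w : ℝ) (n : ℕ) : Prop :=
  n.primeFactorsList.length ≤ r ∧ ∀ q : ℕ, q.Prime → q ∣ n → w ≤ q

/-- `{0, t_1, ..., t_k}` is admissible: for every prime `q` the residues do not cover everything. -/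
def Admissible {k : ℕ} (t : Fin k → ℕ) : Prop :=
  ∀ q : ℕ, q.Prime → ∃ n : ℕ, ¬ q ∣ n ∧ ∀ i, ¬ q ∣ n + t i

/-- **Runs of primes `p ≡ c` modulo `q` with almost prime `p + t_1, ..., p + t_k`.** Let
`{0, t_1, ..., t_k}` be admissible, let `q` be squarefree and let `c (c + t_1) ... (c + t_k)` be coprime
to `q` (for instance `q = 1`). For every `m` there are `K`, `r` and `δ > 0` such that, for every finite
set `S` of at least `K` nonnegative integers and every `l`, there is an exponent `B` such that for all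
large `N` there are a subset `H` of `S` with at least `m` elements and an arithmetic progression
`n, n + d, ..., n + (l - 1) d` in `(N, 2 N]` with difference `1 ≤ d ≤ (log N) ^ B` such that for all its
terms `x`: for all `s ∈ H` the number `p = x + s` is a prime `≡ c` modulo `q` and all `p + t_i` have at
most `r` prime factors, all of them at least `N ^ δ`; and no other number `x + y`, `y ≤ max S`, is prime,
except possibly if `y = s + t_i` for some `s ∈ S` and some `i`. -/
theorem result (k : ℕ) (t : Fin k → ℕ) (ht : Admissible t) (q c : ℕ) (hq : Squarefree q)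
    (hc : Nat.Coprime (c * ∏ i, (c + t i)) q) (m : ℕ) :
    ∃ (K r : ℕ) (δ : ℝ), 0 < δ ∧ ∀ S : Finset ℕ, K ≤ S.card → ∀ l : ℕ, ∃ B : ℕ,
      ∀ᶠ N : ℕ in atTop, ∃ H ⊆ S, m ≤ H.card ∧ ∃ n d : ℕ, 1 ≤ d ∧ (d : ℝ) ≤ Real.log N ^ B ∧
      ∀ j < l, N < n + j * d ∧ n + j * d + S.sup id ≤ 2 * N ∧
        (∀ s ∈ H, (n + j * d + s).Prime ∧ n + j * d + s ≡ c [MOD q] ∧
          ∀ i, AlmostPrime r ((N : ℝ) ^ δ) (n + j * d + s + t i)) ∧
        ∀ y ≤ S.sup id, y ∉ H → (∀ s ∈ S, ∀ i, y ≠ s + t i) → ¬ (n + j * d + y).Prime :=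
  Pool.Agent.R498.MP.tup_runsC k t ht q c hq hc m

end Pool.Agent.Results.MP_f686a1_nt.PrimeStrings
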