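import Mathlib
import Pool.Agent.R521.F6.F3

set_option autoImplicit false

/-!
# Prime tuples for almost all sets in a sifted set, with up to `c log x / (log log x) ^ 2` elements
-/

open Finset

namespace Pool.Agent.Results.MP_f686a1_nt.SiftedSets

open Classical in
/-- The integers `0 ≤ a ≤ H` that lie outside the class of `b p` modulo `p` for every prime
`p ≤ w`. -/
noncomputable def sifted (w : ℕ) (b : ℕ → ℕ) (H : ℕ) : Finset ℕ :=
  (range (H + 1)).filter (fun a => ∀ p : ℕ, p.Prime → p ≤ w → ¬ a ≡ b p [MOD p])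

open Classical in
/-- The integers `1 ≤ n ≤ H` with `n + a` prime for all `a` in `A`. -/
noncomputable def shifts (H : ℕ) (A : Finset ℕ) : Finset ℕ :=
  (Icc 1 H).filter (fun n => ∀ a ∈ A, (n + a).Prime)

open Classical in
/-- The `k`-element subsets `A` of `sifted w b H` with at most `H ^ (1 - η)` integers `1 ≤ n ≤ H`
such that all the numbers `n + a`, `a ∈ A`, are prime. -/
noncomputable def bad (η : ℝ) (k w : ℕ) (b : ℕ → ℕ) (H : ℕ) : Finset (Finset ℕ) :=
  ((sifted w b H).powersetCard k).filter (fun A => ((shifts H A).card : ℝ) ≤ (H : ℝ) ^ (1 - η))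

/-- For every `0 < η < 1` there is `c > 0` such that for arbitrarily large `x`, for all integers
`x ^ η ≤ H ≤ x`, all `1 ≤ k ≤ w ≤ c log x / (log log x) ^ 2` and all residue classes `b p mod p`
(`p ≤ w` prime): all but at most `4080 (k / w)` of the `k`-element subsets `A` of the sifted set
have more than `H ^ (1 - η)` integers `1 ≤ n ≤ H` with all of `n + a`, `a ∈ A`, prime. -/
theorem result (η : ℝ) (hη0 : 0 < η) (hη1 : η < 1) :
    ∃ c : ℝ, 0 < c ∧ ∀ X : ℝ, ∃ x : ℝ, X ≤ x ∧ Real.exp 1 < x ∧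
      ∀ H : ℕ, x ^ η ≤ (H : ℝ) → (H : ℝ) ≤ x →
      ∀ k w : ℕ, 1 ≤ k → k ≤ w → (w : ℝ) ≤ c * Real.log x / Real.log (Real.log x) ^ 2 →
      ∀ b : ℕ → ℕ,
        ((bad η k w b H).card : ℝ) ≤ 4080 * ((k : ℝ) / (w : ℝ)) * (((sifted w b H).card.choose k : ℕ) : ℝ) := by
  classical
  obtain ⟨c, hc, h⟩ := Pool.Agent.R521.F6.main_sifted hη0 hη1
  refine ⟨c, hc, fun X => ?_⟩
  obtain ⟨x, hx, hx1, h2⟩ := h X
  refine ⟨x, hx, hx1, fun H hH1 hH2 k w hk hkw hw b => ?_⟩
  have h3 := h2 H hH1 hH2 k w hk hkw hw b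
  have e : sifted w b H = Pool.Agent.R521.F6.Sb w b H := by
    ext a
    rw [Pool.Agent.R521.F6.mem_Sb]
    unfold sifted
    rw [mem_filter, mem_range, Nat.lt_succ_iff]
    constructor
    · rintro ⟨h4, h5⟩
      refine ⟨h4, fun p hp => h5 p (Pool.Agent.H373R2.T7.mem_pz.1 hp).2 (Pool.Agent.H373R2.T7.mem_pz.1 hp).1⟩
    · rintro ⟨h4, h5⟩
      exact ⟨h4, fun p hp hpw => h5 p (Pool.Agent.H373R2.T7.mem_pz.2 ⟨hpw, hp⟩)⟩
  unfold bad
  rw [e]
  refine le_trans (le_of_eq ?_) h3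
  congr 2

end Pool.Agent.Results.MP_f686a1_nt.SiftedSets
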